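import Mathlib

set_option autoImplicit false

/-!
# Upper bounds for sums of nonnegative multiplicative functions

For `h` multiplicative with `0 ≤ h (p ^ k) ≤ k + 1` the sum of `h` up to `x` is at most a constant
times `x / log x * exp (∑ h p / p)`.
-/

namespace Pool.Agent.H84.PD

open Finset

/-- Nonnegative multiplicative functions with `h (p ^ k) ≤ k + 1`. -/
structure HT (h : ℕ → ℝ) : Prop where
  nn : ∀ n, 0 ≤ h n
  one : h 1 = 1
  mul : ∀ a b : ℕ, a.Coprime b → h (a * b) = h a * h b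
  pow : ∀ p k : ℕ, p.Prime → h (p ^ k) ≤ k + 1

private theorem HT_geo {t : ℝ} (h0 : 0 ≤ t) (h1 : t ≤ 1 / 2) :
    HasSum (fun k : ℕ => ((k : ℝ) + 1) * t ^ k) (1 / (1 - t) ^ 2) := by
  have hn : ‖t‖ < 1 := by
    rw [Real.norm_of_nonneg h0]
    linarith
  have e1 := hasSum_coe_mul_geometric_of_norm_lt_one hn
  have e2 := hasSum_geometric_of_norm_lt_one hn
  have e3 := e1.add e2
  have h2 : (1 - t) ≠ 0 := by
    have : 0 < 1 - t := by linarith
    exact this.ne'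
  have e4 : t / (1 - t) ^ 2 + (1 - t)⁻¹ = 1 / (1 - t) ^ 2 := by
    field_simp
    ring
  rw [e4] at e3
  have e5 : (fun k : ℕ => ((k : ℝ) + 1) * t ^ k) = fun k : ℕ => (k : ℝ) * t ^ k + t ^ k := by
    funext k
    ring
  rw [e5]
  exact e3

/-- The local factor. -/
private theorem HT_fac {h : ℕ → ℝ} (H : HT h) {p : ℕ} (hp : p.Prime) :
    Summable (fun k : ℕ => ‖h (p ^ k) / ((p ^ k : ℕ) : ℝ)‖) ∧
      ∑' k : ℕ, h (p ^ k) / ((p ^ k : ℕ) : ℝ) ≤ Real.exp (h p / p + 12 * ((p : ℝ) ^ 2)⁻¹) := by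
  have hp2 : (2 : ℝ) ≤ p := by exact_mod_cast hp.two_le
  have hp0 : (0 : ℝ) < p := by linarith
  set t : ℝ := (p : ℝ)⁻¹ with ht
  have ht0 : 0 < t := inv_pos.2 hp0
  have ht1 : t ≤ 1 / 2 := by
    rw [ht, inv_le_comm₀ hp0 (by norm_num)]
    linarith
  have e : ∀ k : ℕ, h (p ^ k) / ((p ^ k : ℕ) : ℝ) = h (p ^ k) * t ^ k := by
    intro k
    rw [ht, div_eq_mul_inv, inv_pow]
    push_cast
    rfl
  have hs := HT_geo ht0.le ht1
  have hle : ∀ k : ℕ, h (p ^ k) * t ^ k ≤ ((k : ℝ) + 1) * t ^ k := fun k =>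
    mul_le_mul_of_nonneg_right (H.pow p k hp) (by positivity)
  have hnn : ∀ k : ℕ, 0 ≤ h (p ^ k) * t ^ k := fun k =>
    mul_nonneg (H.nn _) (by positivity)
  have hsum : Summable (fun k : ℕ => h (p ^ k) * t ^ k) := hs.summable.of_nonneg_of_le hnn hle
  constructor
  · have : (fun k : ℕ => ‖h (p ^ k) / ((p ^ k : ℕ) : ℝ)‖) = fun k : ℕ => h (p ^ k) * t ^ k := by
      funext k
      rw [e k, Real.norm_of_nonneg (hnn k)]
    rw [this]
    exact hsum
  · rw [tsum_congr e]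
    have h1 := hsum.sum_add_tsum_nat_add 2
    have h2 := hs.summable.sum_add_tsum_nat_add 2
    rw [hs.tsum_eq] at h2
    have h3 : ∑' k : ℕ, h (p ^ (k + 2)) * t ^ (k + 2) ≤
        ∑' k : ℕ, (((k + 2 : ℕ) : ℝ) + 1) * t ^ (k + 2) :=
      ((summable_nat_add_iff 2).2 hsum).tsum_le_tsum (fun k => hle (k + 2))
        ((summable_nat_add_iff 2).2 hs.summable)
    simp only [sum_range_succ, sum_range_zero, pow_zero, pow_one, Nat.cast_zero, Nat.cast_one,
      zero_add, mul_one, H.one] at h1 h2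
    have h4 : 1 / (1 - t) ^ 2 - 1 - 2 * t ≤ 12 * t ^ 2 := by
      have h5 : 0 < (1 - t) ^ 2 := by
        have : 0 < 1 - t := by linarith
        positivity
      rw [sub_sub, sub_le_iff_le_add, div_le_iff₀ h5]
      nlinarith [mul_nonneg ht0.le ht0.le, mul_nonneg (mul_nonneg ht0.le ht0.le) ht0.le,
        mul_nonneg (mul_nonneg ht0.le ht0.le) (by linarith : (0 : ℝ) ≤ 1 / 2 - t),
        mul_nonneg (mul_nonneg (mul_nonneg ht0.le ht0.le) ht0.le) ht0.le,
        mul_nonneg (mul_nonneg (mul_nonneg ht0.le ht0.le) (by linarith : (0 : ℝ) ≤ 1 / 2 - t))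
          (by linarith : (0 : ℝ) ≤ 1 / 2 - t)]
    have h6 : h p / p = h p * t := by rw [ht, div_eq_mul_inv]
    have h7 : 12 * ((p : ℝ) ^ 2)⁻¹ = 12 * t ^ 2 := by rw [ht, inv_pow]
    rw [h6, h7]
    have h8 := Real.add_one_le_exp (h p * t + 12 * t ^ 2)
    linarith

/-- Logarithmic sums. -/
theorem HT_log {h : ℕ → ℝ} (H : HT h) (x : ℕ) :
    ∑ n ∈ Icc 1 x, h n / n ≤
      Real.exp 12 * Real.exp (∑ p ∈ (Icc 1 x).filter Nat.Prime, h p / p) := by
  have hf1 : (fun n : ℕ => h n / (n : ℝ)) 1 = 1 := by simp [H.one]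
  have hmul : ∀ {m n : ℕ}, Nat.Coprime m n → (fun n : ℕ => h n / (n : ℝ)) (m * n) =
      (fun n : ℕ => h n / (n : ℝ)) m * (fun n : ℕ => h n / (n : ℝ)) n := by
    intro m n hmn
    simp only
    rw [H.mul m n hmn]
    push_cast
    rw [div_mul_div_comm]
  obtain ⟨-, hsum⟩ := EulerProduct.summable_and_hasSum_smoothNumbers_prod_primesBelow_tsum
    (f := fun n : ℕ => h n / (n : ℝ)) hf1 hmul (fun {p} hp => (HT_fac H hp).1) (x + 1)
  have h1 : ∑ m ∈ (Icc 1 x).subtype (fun d => d ∈ Nat.smoothNumbers (x + 1)),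
      (fun n : ℕ => h n / (n : ℝ)) (m : ℕ) ≤
      ∏ p ∈ (x + 1).primesBelow, ∑' k : ℕ, h (p ^ k) / ((p ^ k : ℕ) : ℝ) :=
    sum_le_hasSum _ (fun i _ => div_nonneg (H.nn _) (Nat.cast_nonneg _)) hsum
  have hsm : ∀ n ∈ Icc 1 x, n ∈ Nat.smoothNumbers (x + 1) := by
    intro n hn
    rw [mem_Icc] at hn
    rw [Nat.mem_smoothNumbers']
    intro p hp hpn
    exact Nat.lt_succ_of_le ((Nat.le_of_dvd (by omega) hpn).trans hn.2)
  rw [Finset.sum_subtype_of_mem (fun m => h m / (m : ℝ)) hsm] at h1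
  refine h1.trans ?_
  have h2 : ∏ p ∈ (x + 1).primesBelow, ∑' k : ℕ, h (p ^ k) / ((p ^ k : ℕ) : ℝ) ≤
      ∏ p ∈ (x + 1).primesBelow, Real.exp (h p / p + 12 * ((p : ℝ) ^ 2)⁻¹) := by
    refine prod_le_prod (fun p hp => tsum_nonneg fun k => div_nonneg (H.nn _) (Nat.cast_nonneg _))
      (fun p hp => (HT_fac H (Nat.prime_of_mem_primesBelow hp)).2)
  refine h2.trans ?_
  rw [← Real.exp_sum, ← Real.exp_add, Real.exp_le_exp, sum_add_distrib, ← mul_sum, add_comm]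
  have h3 : (x + 1).primesBelow = (Icc 1 x).filter Nat.Prime := by
    ext p
    rw [Nat.mem_primesBelow, mem_filter, mem_Icc]
    constructor
    · rintro ⟨h, hp⟩
      exact ⟨⟨hp.one_lt.le, Nat.lt_succ_iff.1 h⟩, hp⟩
    · rintro ⟨h, hp⟩
      exact ⟨Nat.lt_succ_iff.2 h.2, hp⟩
  rw [h3]
  have h4 : ∑ p ∈ (Icc 1 x).filter Nat.Prime, ((p : ℝ) ^ 2)⁻¹ ≤ 1 := by
    rcases Nat.eq_zero_or_pos x with rfl | hx
    · simp
    have h5 : (Icc 1 x).filter Nat.Prime ⊆ Ioc 1 x := by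
      intro p hp
      rw [mem_filter, mem_Icc] at hp
      exact mem_Ioc.2 ⟨hp.2.one_lt, hp.1.2⟩
    have h6 := sum_Ioc_inv_sq_le_sub (α := ℝ) one_ne_zero (show 1 ≤ x from hx)
    have h7 : ∑ p ∈ (Icc 1 x).filter Nat.Prime, ((p : ℝ) ^ 2)⁻¹ ≤
        ∑ p ∈ Ioc 1 x, ((p : ℝ) ^ 2)⁻¹ :=
      sum_le_sum_of_subset_of_nonneg h5 (fun p _ _ => by positivity)
    have h8 : (0 : ℝ) ≤ (x : ℝ)⁻¹ := by positivity
    have h9 : ((1 : ℕ) : ℝ)⁻¹ = 1 := by norm_num
    rw [h9] at h6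
    linarith
  linarith

private theorem HT_series (n : ℕ) (hn : 2 ≤ n) :
    ∑ k ∈ Icc 2 n, ((k : ℝ) + 1) * k * (1 / 2) ^ k = 7 - ((n : ℝ) ^ 2 + 5 * n + 8) * (1 / 2) ^ n := by
  induction n, hn using Nat.le_induction with
  | base => norm_num
  | succ n hn ih =>
    rw [← Finset.insert_Icc_right_eq_Icc_add_one (by omega), sum_insert (by simp), ih]
    push_cast
    rw [pow_succ]
    ring

private theorem HT_series_le (x : ℕ) {t : ℝ} (h0 : 0 ≤ t) (h1 : t ≤ 1 / 2) :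
    ∑ k ∈ Icc 2 x, ((k : ℝ) + 1) * k * t ^ k ≤ 28 * t ^ 2 := by
  rcases lt_or_ge x 2 with hx | hx
  · rw [Icc_eq_empty (by omega), sum_empty]
    positivity
  have h2 : ∀ k ∈ Icc 2 x, ((k : ℝ) + 1) * k * t ^ k ≤
      4 * t ^ 2 * (((k : ℝ) + 1) * k * (1 / 2) ^ k) := by
    intro k hk
    obtain ⟨j, rfl⟩ := Nat.exists_eq_add_of_le (mem_Icc.1 hk).1
    have h3 : t ^ j ≤ (1 / 2) ^ j := pow_le_pow_left₀ h0 h1 j
    have h4 : ((2 + j : ℕ) : ℝ) + 1 ≥ 0 := by positivity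
    calc (((2 + j : ℕ) : ℝ) + 1) * ((2 + j : ℕ) : ℝ) * t ^ (2 + j)
        = (((2 + j : ℕ) : ℝ) + 1) * ((2 + j : ℕ) : ℝ) * t ^ 2 * t ^ j := by
          rw [pow_add]
          ring
      _ ≤ (((2 + j : ℕ) : ℝ) + 1) * ((2 + j : ℕ) : ℝ) * t ^ 2 * (1 / 2) ^ j := by
          gcongr
      _ = 4 * t ^ 2 * ((((2 + j : ℕ) : ℝ) + 1) * ((2 + j : ℕ) : ℝ) * (1 / 2) ^ (2 + j)) := by
          rw [pow_add]
          ring
  refine (sum_le_sum h2).trans ?_
  rw [← mul_sum, HT_series x hx]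
  have h3 : 0 ≤ ((x : ℝ) ^ 2 + 5 * x + 8) * (1 / 2) ^ x := by positivity
  nlinarith [sq_nonneg t, mul_nonneg (sq_nonneg t) h3]

/-- The sum over prime powers. -/
private theorem HT_pp : ∃ K : ℝ, 0 < K ∧ ∀ (x : ℕ) (y : ℝ), 0 ≤ y →
    ∑ p ∈ (Icc 1 x).filter Nat.Prime, ∑ k ∈ Icc 1 x,
      (if (p : ℝ) ^ k ≤ y then ((k : ℝ) + 1) * k * Real.log p else 0) ≤ K * y := by
  have hS : Summable (fun n : ℕ => 56 * (n : ℝ) ^ (-(3 / 2) : ℝ)) :=
    (Real.summable_nat_rpow.2 (by norm_num)).mul_left 56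
  refine ⟨2 * Real.log 4 + (∑' n : ℕ, 56 * (n : ℝ) ^ (-(3 / 2) : ℝ)) + 1, ?_, fun x y hy => ?_⟩
  · have h1 : 0 ≤ Real.log 4 := Real.log_nonneg (by norm_num)
    have h2 : 0 ≤ ∑' n : ℕ, 56 * (n : ℝ) ^ (-(3 / 2) : ℝ) := tsum_nonneg fun n => by positivity
    linarith
  have h1 : ∀ p ∈ (Icc 1 x).filter Nat.Prime, ∑ k ∈ Icc 1 x,
      (if (p : ℝ) ^ k ≤ y then ((k : ℝ) + 1) * k * Real.log p else 0) ≤
      2 * (if (p : ℝ) ≤ y then Real.log p else 0) + y * (56 * (p : ℝ) ^ (-(3 / 2) : ℝ)) := by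
    intro p hp
    rw [mem_filter, mem_Icc] at hp
    have hp2 : (2 : ℝ) ≤ p := by exact_mod_cast hp.2.two_le
    have hp0 : (0 : ℝ) < p := by linarith
    have hl0 : 0 ≤ Real.log p := Real.log_nonneg (by linarith)
    have ht1 : (p : ℝ)⁻¹ ≤ 1 / 2 := by
      rw [inv_le_comm₀ hp0 (by norm_num)]
      linarith
    have e1 : Icc 1 x = insert 1 (Icc 2 x) := by
      ext k
      simp only [mem_insert, mem_Icc]
      omega
    rw [e1, sum_insert (by simp)]
    have h2 : ∑ k ∈ Icc 2 x, (if (p : ℝ) ^ k ≤ y then ((k : ℝ) + 1) * k * Real.log p else 0) ≤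
        ∑ k ∈ Icc 2 x, y * Real.log p * (((k : ℝ) + 1) * k * ((p : ℝ)⁻¹) ^ k) := by
      refine sum_le_sum fun k hk => ?_
      have h3 : 0 ≤ ((k : ℝ) + 1) * k * Real.log p := by positivity
      split_ifs with h
      · have h4 : 1 ≤ y * ((p : ℝ)⁻¹) ^ k := by
          rw [inv_pow, ← div_eq_mul_inv, one_le_div (by positivity)]
          exact h
        calc ((k : ℝ) + 1) * k * Real.log p ≤
            ((k : ℝ) + 1) * k * Real.log p * (y * ((p : ℝ)⁻¹) ^ k) := le_mul_of_one_le_right h3 h4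
          _ = y * Real.log p * (((k : ℝ) + 1) * k * ((p : ℝ)⁻¹) ^ k) := by ring
      · positivity
    rw [← mul_sum] at h2
    have h5 : y * Real.log p * ∑ k ∈ Icc 2 x, ((k : ℝ) + 1) * k * ((p : ℝ)⁻¹) ^ k ≤
        y * Real.log p * (28 * ((p : ℝ)⁻¹) ^ 2) :=
      mul_le_mul_of_nonneg_left (HT_series_le x (by positivity) ht1) (by positivity)
    have h6 : Real.log p ≤ (p : ℝ) ^ (1 / 2 : ℝ) / (1 / 2) :=
      Real.log_le_rpow_div hp0.le (by norm_num)
    have h7 : y * Real.log p * (28 * ((p : ℝ)⁻¹) ^ 2) ≤ y * (56 * (p : ℝ) ^ (-(3 / 2) : ℝ)) := by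
      have e2 : (p : ℝ) ^ (-(3 / 2) : ℝ) = (p : ℝ) ^ (1 / 2 : ℝ) * ((p : ℝ)⁻¹) ^ 2 := by
        have e3 : ((p : ℝ)⁻¹) ^ 2 = (p : ℝ) ^ (-2 : ℝ) := by
          rw [Real.rpow_neg hp0.le, inv_pow]
          norm_num
        rw [e3, ← Real.rpow_add hp0]
        norm_num
      rw [e2]
      calc y * Real.log p * (28 * ((p : ℝ)⁻¹) ^ 2) ≤
          y * ((p : ℝ) ^ (1 / 2 : ℝ) / (1 / 2)) * (28 * ((p : ℝ)⁻¹) ^ 2) := by gcongr
        _ = y * (56 * ((p : ℝ) ^ (1 / 2 : ℝ) * ((p : ℝ)⁻¹) ^ 2)) := by ring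
    have h8 : (if (p : ℝ) ^ 1 ≤ y then (((1 : ℕ) : ℝ) + 1) * ((1 : ℕ) : ℝ) * Real.log p else 0) =
        2 * (if (p : ℝ) ≤ y then Real.log p else 0) := by
      rw [pow_one]
      split_ifs
      · push_cast
        ring
      · ring
    rw [h8]
    linarith
  refine (sum_le_sum h1).trans ?_
  rw [sum_add_distrib, ← mul_sum, ← mul_sum]
  have h2 : ∑ p ∈ (Icc 1 x).filter Nat.Prime, (if (p : ℝ) ≤ y then Real.log p else 0) ≤
      Real.log 4 * y := by
    refine le_trans ?_ (Chebyshev.theta_le_log4_mul_x hy)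
    rw [← sum_filter, Chebyshev.theta]
    refine sum_le_sum_of_subset_of_nonneg ?_ ?_
    · intro p hp
      simp only [mem_filter, mem_Icc, mem_Ioc] at hp ⊢
      exact ⟨⟨by omega, Nat.le_floor hp.2⟩, hp.1.2⟩
    · intro p hp _
      rw [mem_filter] at hp
      exact Real.log_nonneg (by exact_mod_cast hp.2.one_lt.le)
  have h3 : ∑ p ∈ (Icc 1 x).filter Nat.Prime, 56 * (p : ℝ) ^ (-(3 / 2) : ℝ) ≤
      ∑' n : ℕ, 56 * (n : ℝ) ^ (-(3 / 2) : ℝ) :=
    hS.sum_le_tsum _ (fun n _ => by positivity)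
  nlinarith [mul_le_mul_of_nonneg_left h3 hy]

/-- For one prime: splitting off the exact power. -/
private theorem HT_split {h : ℕ → ℝ} (H : HT h) (x : ℕ) {p : ℕ} (hp : p.Prime) :
    ∑ n ∈ (Icc 1 x).filter (fun n => p ∣ n), h n * ((n.factorization p : ℝ) * Real.log p) ≤
      ∑ t ∈ Icc 1 x ×ˢ Icc 1 x, (if p ^ t.1 * t.2 ≤ x then
        ((t.1 : ℝ) + 1) * t.1 * Real.log p * h t.2 else 0) := by
  have hl0 : 0 ≤ Real.log p := Real.log_nonneg (by exact_mod_cast hp.one_lt.le)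
  set i : ℕ → ℕ × ℕ := fun n => (n.factorization p, n / p ^ n.factorization p) with hi
  have hin : ∀ n ∈ (Icc 1 x).filter (fun n => p ∣ n), p ^ n.factorization p *
      (n / p ^ n.factorization p) = n := fun n _ => Nat.ordProj_mul_ordCompl_eq_self n p
  have hinj : Set.InjOn i ((Icc 1 x).filter (fun n => p ∣ n) : Finset ℕ) := by
    intro a ha b hb hab
    have h1 := hin a ha
    have h2 := hin b hb
    simp only [hi, Prod.mk.injEq] at hab
    rw [← h1, ← h2, hab.2, hab.1]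
  have hle : ∀ n ∈ (Icc 1 x).filter (fun n => p ∣ n),
      h n * ((n.factorization p : ℝ) * Real.log p) ≤
      (fun t : ℕ × ℕ => (if p ^ t.1 * t.2 ≤ x then
        ((t.1 : ℝ) + 1) * t.1 * Real.log p * h t.2 else 0)) (i n) := by
    intro n hn
    have h1 := hin n hn
    rw [mem_filter, mem_Icc] at hn
    have h2 : (p ^ n.factorization p).Coprime (n / p ^ n.factorization p) :=
      (Nat.coprime_ordCompl hp (by omega)).pow_left _
    have h3 : h n = h (p ^ n.factorization p) * h (n / p ^ n.factorization p) := by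
      rw [← H.mul _ _ h2, h1]
    simp only [hi]
    rw [h1, if_pos hn.1.2, h3]
    have h4 := H.pow p (n.factorization p) hp
    have h5 := H.nn (n / p ^ n.factorization p)
    calc h (p ^ n.factorization p) * h (n / p ^ n.factorization p) *
        ((n.factorization p : ℝ) * Real.log p) ≤
        ((n.factorization p : ℝ) + 1) * h (n / p ^ n.factorization p) *
          ((n.factorization p : ℝ) * Real.log p) := by gcongr
      _ = ((n.factorization p : ℝ) + 1) * (n.factorization p : ℝ) * Real.log p *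
          h (n / p ^ n.factorization p) := by ring
  refine (sum_le_sum hle).trans ?_
  rw [← sum_image (f := fun t : ℕ × ℕ => (if p ^ t.1 * t.2 ≤ x then
        ((t.1 : ℝ) + 1) * t.1 * Real.log p * h t.2 else 0)) hinj]
  refine sum_le_sum_of_subset_of_nonneg ?_ ?_
  · intro t ht
    obtain ⟨n, hn, rfl⟩ := mem_image.1 ht
    have h1 := hin n hn
    rw [mem_filter, mem_Icc] at hn
    rw [mem_product, mem_Icc, mem_Icc]
    simp only [hi]
    have h2 : 1 ≤ n.factorization p := hp.factorization_pos_of_dvd (by omega) hn.2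
    have h3 : n.factorization p < n := Nat.factorization_lt p (by omega)
    have h4 : 0 < n / p ^ n.factorization p := Nat.ordCompl_pos p (by omega)
    have h5 : n / p ^ n.factorization p ≤ n := Nat.div_le_self _ _
    omega
  · intro t _ _
    split_ifs
    · exact mul_nonneg (by positivity) (H.nn _)
    · exact le_rfl

/-- The sum with weight `log n`. -/
private theorem HT_wt : ∃ K : ℝ, 0 < K ∧ ∀ h : ℕ → ℝ, HT h → ∀ x : ℕ,
    ∑ n ∈ Icc 1 x, h n * Real.log n ≤ K * x * ∑ n ∈ Icc 1 x, h n / n := by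
  obtain ⟨K, hK, hpp⟩ := HT_pp
  refine ⟨K, hK, fun h H x => ?_⟩
  have h1 : ∀ n ∈ Icc 1 x, h n * Real.log n =
      ∑ p ∈ n.primeFactors, h n * ((n.factorization p : ℝ) * Real.log p) := by
    intro n _
    rw [Real.log_nat_eq_sum_factorization, Finsupp.sum, Nat.support_factorization, mul_sum]
  rw [sum_congr rfl h1]
  have h2 : ∑ n ∈ Icc 1 x, ∑ p ∈ n.primeFactors, h n * ((n.factorization p : ℝ) * Real.log p) =
      ∑ p ∈ (Icc 1 x).filter Nat.Prime, ∑ n ∈ (Icc 1 x).filter (fun n => p ∣ n),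
        h n * ((n.factorization p : ℝ) * Real.log p) := by
    refine sum_comm' fun n p => ?_
    simp only [mem_filter, mem_Icc, Nat.mem_primeFactors]
    constructor
    · rintro ⟨hn, hp, hd, _⟩
      exact ⟨⟨hn, hd⟩, ⟨hp.one_lt.le, (Nat.le_of_dvd (by omega) hd).trans hn.2⟩, hp⟩
    · rintro ⟨⟨hn, hd⟩, _, hp⟩
      exact ⟨hn, hp, hd, by omega⟩
  rw [h2]
  have h3 : ∀ p ∈ (Icc 1 x).filter Nat.Prime, ∑ n ∈ (Icc 1 x).filter (fun n => p ∣ n),
        h n * ((n.factorization p : ℝ) * Real.log p) ≤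
      ∑ a ∈ Icc 1 x, ∑ k ∈ Icc 1 x, (if (p : ℝ) ^ k ≤ (x : ℝ) / a then
        ((k : ℝ) + 1) * k * Real.log p else 0) * h a := by
    intro p hp
    rw [mem_filter] at hp
    refine (HT_split H x hp.2).trans (le_of_eq ?_)
    rw [sum_product_right]
    refine sum_congr rfl fun a ha => sum_congr rfl fun k _ => ?_
    have ha0 : (0 : ℝ) < a := by exact_mod_cast (mem_Icc.1 ha).1
    have h4 : (p ^ k * a ≤ x) ↔ (p : ℝ) ^ k ≤ (x : ℝ) / a := by
      rw [le_div_iff₀ ha0]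
      exact_mod_cast Iff.rfl
    simp only [h4]
    split_ifs
    · rfl
    · rw [zero_mul]
  refine (sum_le_sum h3).trans ?_
  rw [sum_comm, mul_sum]
  refine sum_le_sum fun a ha => ?_
  have ha0 : (0 : ℝ) < a := by exact_mod_cast (mem_Icc.1 ha).1
  have h4 : ∑ p ∈ (Icc 1 x).filter Nat.Prime, ∑ k ∈ Icc 1 x,
      (if (p : ℝ) ^ k ≤ (x : ℝ) / a then ((k : ℝ) + 1) * k * Real.log p else 0) * h a =
      (∑ p ∈ (Icc 1 x).filter Nat.Prime, ∑ k ∈ Icc 1 x,
      (if (p : ℝ) ^ k ≤ (x : ℝ) / a then ((k : ℝ) + 1) * k * Real.log p else 0)) * h a := by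
    rw [sum_mul]
    exact sum_congr rfl fun p _ => (sum_mul _ _ _).symm
  rw [h4]
  calc _ ≤ K * ((x : ℝ) / a) * h a :=
        mul_le_mul_of_nonneg_right (hpp x _ (by positivity)) (H.nn a)
    _ = K * x * (h a / a) := by ring

/-- The upper bound of Hall and Tenenbaum. -/
theorem HT_sum : ∃ C : ℝ, 0 < C ∧ ∀ h : ℕ → ℝ, HT h → ∀ x : ℕ, 2 ≤ x →
    ∑ n ∈ Icc 1 x, h n ≤
      C * (x / Real.log x) * Real.exp (∑ p ∈ (Icc 1 x).filter Nat.Prime, h p / p) := by
  obtain ⟨K, hK, hwt⟩ := HT_wt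
  refine ⟨(K + 1) * Real.exp 12, by positivity, fun h H x hx => ?_⟩
  have hx2 : (2 : ℝ) ≤ x := by exact_mod_cast hx
  have hx0 : (0 : ℝ) < x := by linarith
  have hlx : 0 < Real.log x := Real.log_pos (by linarith)
  have h1 := hwt h H x
  have h2 : ∑ n ∈ Icc 1 x, h n * Real.log (x / n) ≤ x * ∑ n ∈ Icc 1 x, h n / n := by
    rw [mul_sum]
    refine sum_le_sum fun n hn => ?_
    have hn0 : (0 : ℝ) < n := by exact_mod_cast (mem_Icc.1 hn).1
    have h3 : Real.log (x / n) ≤ x / n := by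
      have := Real.log_le_sub_one_of_pos (div_pos hx0 hn0)
      linarith
    calc h n * Real.log (x / n) ≤ h n * (x / n) := mul_le_mul_of_nonneg_left h3 (H.nn n)
      _ = x * (h n / n) := by ring
  have h3 : (∑ n ∈ Icc 1 x, h n) * Real.log x =
      ∑ n ∈ Icc 1 x, h n * Real.log n + ∑ n ∈ Icc 1 x, h n * Real.log (x / n) := by
    rw [← sum_add_distrib, sum_mul]
    refine sum_congr rfl fun n hn => ?_
    have hn0 : (0 : ℝ) < n := by exact_mod_cast (mem_Icc.1 hn).1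
    rw [Real.log_div hx0.ne' hn0.ne']
    ring
  have h4 := HT_log H x
  have h5 : (∑ n ∈ Icc 1 x, h n) * Real.log x ≤ (K + 1) * x * (Real.exp 12 *
      Real.exp (∑ p ∈ (Icc 1 x).filter Nat.Prime, h p / p)) := by
    calc (∑ n ∈ Icc 1 x, h n) * Real.log x ≤ (K + 1) * x * ∑ n ∈ Icc 1 x, h n / n := by
          rw [h3]
          linarith
      _ ≤ _ := mul_le_mul_of_nonneg_left h4 (by positivity)
  rw [← le_div_iff₀ hlx] at h5
  refine h5.trans (le_of_eq ?_)
  ring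

/-- The convolution of `1` and a completely multiplicative function with values `0`, `1`, `-1`. -/
theorem HT_conv {f : ℕ → ℝ} (h1 : f 1 = 1) (hm : ∀ a b : ℕ, f (a * b) = f a * f b)
    (hv : ∀ n, f n = 0 ∨ f n = 1 ∨ f n = -1) : HT (fun n => ∑ d ∈ n.divisors, f d) := by
  have hpow : ∀ p k : ℕ, f (p ^ k) = f p ^ k := by
    intro p k
    induction k with
    | zero => simp [h1]
    | succ k ih => rw [pow_succ, hm, ih, pow_succ]
  have hpp : ∀ p k : ℕ, p.Prime →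
      ∑ d ∈ (p ^ k).divisors, f d = ∑ j ∈ range (k + 1), f p ^ j := by
    intro p k hp
    rw [Nat.sum_divisors_prime_pow hp]
    exact sum_congr rfl fun j _ => hpow p j
  have hpn : ∀ p k : ℕ, p.Prime → 0 ≤ ∑ d ∈ (p ^ k).divisors, f d := by
    intro p k hp
    rw [hpp p k hp]
    rcases hv p with h | h | h
    · rw [h, sum_range_succ']
      simp
    · rw [h]
      simp
      positivity
    · rw [h, neg_one_geom_sum]
      split_ifs <;> norm_num
  let F : ArithmeticFunction ℝ := ⟨fun n => if n = 0 then 0 else f n, if_pos rfl⟩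
  have hF : ∀ n, n ≠ 0 → F n = f n := fun n hn => if_neg hn
  have hFm : F.IsMultiplicative := by
    refine ArithmeticFunction.IsMultiplicative.iff_ne_zero.2 ⟨?_, ?_⟩
    · rw [hF 1 one_ne_zero, h1]
    · intro m n hm0 hn0 _
      rw [hF _ hm0, hF _ hn0, hF _ (mul_ne_zero hm0 hn0), hm]
  have hG : ∀ n : ℕ, ∑ d ∈ n.divisors, f d = ((ArithmeticFunction.zeta : ArithmeticFunction ℝ) * F) n := by
    intro n
    rw [ArithmeticFunction.coe_zeta_mul_apply]
    exact sum_congr rfl fun d hd => (hF d (Nat.pos_of_mem_divisors hd).ne').symm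
  have hGm : ((ArithmeticFunction.zeta : ArithmeticFunction ℝ) * F).IsMultiplicative :=
    ArithmeticFunction.isMultiplicative_zeta.natCast.mul hFm
  refine ⟨?_, by simp [h1], ?_, ?_⟩
  · intro n
    rcases eq_or_ne n 0 with rfl | hn
    · simp
    · rw [hG, hGm.multiplicative_factorization _ hn, Finsupp.prod]
      refine prod_nonneg fun p hp => ?_
      rw [← hG]
      rw [Nat.support_factorization] at hp
      exact hpn p _ (Nat.prime_of_mem_primeFactors hp)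
  · intro a b hab
    rw [hG, hG, hG]
    exact hGm.map_mul_of_coprime hab
  · intro p k hp
    rw [hpp p k hp]
    have : ∀ j ∈ range (k + 1), f p ^ j ≤ 1 := by
      intro j _
      rcases hv p with h | h | h
      · rw [h]
        exact pow_le_one₀ le_rfl zero_le_one
      · rw [h, one_pow]
      · rw [h]
        rcases neg_one_pow_eq_or ℝ j with h | h <;> rw [h]
        norm_num
    have h2 := sum_le_card_nsmul _ _ _ this
    rw [card_range, nsmul_eq_mul, mul_one] at h2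
    push_cast at h2
    exact h2

/-- The upper bound for the convolution of `1` and a completely multiplicative function with values
`0`, `1`, `-1`. -/
theorem HT_conv_sum : ∃ C : ℝ, 0 < C ∧ ∀ f : ℕ → ℝ, f 1 = 1 → (∀ a b : ℕ, f (a * b) = f a * f b) →
    (∀ n, f n = 0 ∨ f n = 1 ∨ f n = -1) → ∀ x : ℕ, 2 ≤ x →
    ∑ n ∈ Icc 1 x, ∑ d ∈ n.divisors, f d ≤
      C * (x / Real.log x) * Real.exp (∑ p ∈ (Icc 1 x).filter Nat.Prime, (1 + f p) / p) := by
  obtain ⟨C, hC, h⟩ := HT_sum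
  refine ⟨C, hC, fun f h1 hm hv x hx => ?_⟩
  refine (h _ (HT_conv h1 hm hv) x hx).trans (le_of_eq ?_)
  congr 2
  refine sum_congr rfl fun p hp => ?_
  rw [mem_filter] at hp
  rw [hp.2.sum_divisors, h1, add_comm]

end Pool.Agent.H84.PD
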